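import Pool.Agent.Helper96.GP.GDefs

/-!
# Block GP-G1: classes of the grid space are in general position, number of lines
-/

open Finset
open scoped Classical

namespace GPG

theorem g1_pair {n M : ℕ} {V C : Finset ℕ} (hV : V ⊆ range (n ^ 2)) (hCV : C ⊆ V)
    (hC : ∀ i ∈ (gridLS n V M).ls,
      ((gridLS n V M).pre i → (C ∩ i).card ≤ 1) ∧ (C ∩ i).card ≤ 2) {x y : ℕ} (hx : x ∈ C)
    (hy : y ∈ C) (hxy : x ≠ y) (hpd : pd n x y ≤ M) (hh : hf n x y y ↔ hf n x y x) : False := by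
  have hxV := hCV hx
  have hyV := hCV hy
  have hx2 : x < n ^ 2 := mem_range.1 (hV hxV)
  have hy2 : y < n ^ 2 := mem_range.1 (hV hyV)
  have hxh : x ∈ ghalf n x y := by
    unfold ghalf
    rw [mem_filter, mem_gline]
    exact ⟨⟨hx2, det3_self1 n x y⟩, Iff.rfl⟩
  have hyh : y ∈ ghalf n x y := by
    unfold ghalf
    rw [mem_filter, mem_gline]
    exact ⟨⟨hy2, det3_self2 n x y⟩, hh⟩
  have hi : V ∩ ghalf n x y ∈ gls n V M := by
    unfold gls
    rw [mem_union]
    right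
    rw [mem_image]
    exact ⟨(x, y), mem_filter.2 ⟨mem_product.2 ⟨hxV, hyV⟩, hxy, hpd, hh⟩, rfl⟩
  have hpre : gpre n M (V ∩ ghalf n x y) :=
    ⟨x, mem_inter.2 ⟨hxV, hxh⟩, y, mem_inter.2 ⟨hyV, hyh⟩, hxy, hpd⟩
  have h1 := (hC _ hi).1 hpre
  have h2 : 1 < (C ∩ (V ∩ ghalf n x y)).card := by
    rw [Finset.one_lt_card]
    exact ⟨x, mem_inter.2 ⟨hx, mem_inter.2 ⟨hxV, hxh⟩⟩, y,
      mem_inter.2 ⟨hy, mem_inter.2 ⟨hyV, hyh⟩⟩, hxy⟩
  omega

theorem good_noThree (n M : ℕ) (V : Finset ℕ) (hV : V ⊆ range (n ^ 2)) (C : Finset ℕ)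
    (hCV : C ⊆ V) (hC : ∀ i ∈ (gridLS n V M).ls,
      ((gridLS n V M).pre i → (C ∩ i).card ≤ 1) ∧ (C ∩ i).card ≤ 2) : NoThree n C := by
  intro a ha b hb c hc hab hbc hac hdet
  have ha2 : a < n ^ 2 := mem_range.1 (hV (hCV ha))
  have hb2 : b < n ^ 2 := mem_range.1 (hV (hCV hb))
  have hc2 : c < n ^ 2 := mem_range.1 (hV (hCV hc))
  by_cases hM : M < pd n a b
  · have hi : V ∩ gline n a b ∈ gls n V M := by
      unfold gls
      rw [mem_union]
      left
      rw [mem_image]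
      exact ⟨(a, b), mem_filter.2 ⟨mem_product.2 ⟨hCV ha, hCV hb⟩, hab, hM⟩, rfl⟩
    have h1 := (hC _ hi).2
    have h2 : ({a, b, c} : Finset ℕ) ⊆ C ∩ (V ∩ gline n a b) := by
      intro z hz
      simp only [mem_insert, mem_singleton] at hz
      rw [mem_inter, mem_inter, mem_gline]
      rcases hz with rfl | rfl | rfl
      · exact ⟨ha, hCV ha, ha2, det3_self1 _ _ _⟩
      · exact ⟨hb, hCV hb, hb2, det3_self2 _ _ _⟩
      · exact ⟨hc, hCV hc, hc2, hdet⟩
    have h3 := card_le_card h2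
    rw [card_eq_three.2 ⟨a, b, c, hab, hac, hbc, rfl⟩] at h3
    omega
  · push Not at hM
    have key : ∀ x ∈ C, ∀ y ∈ C, x ≠ y → det3 n a b x = 0 → det3 n a b y = 0 →
        ¬ (hf n a b y ↔ hf n a b x) := by
      intro x hx y hy hxy hdx hdy hh
      have h := line_eq hab hxy hdx hdy
      refine g1_pair hV hCV hC hx hy hxy (by rw [h.2.1]; exact hM) ?_
      rw [h.2.2 y, h.2.2 x]
      exact hh
    have k1 := key a ha b hb hab (det3_self1 _ _ _) (det3_self2 _ _ _)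
    have k2 := key b hb c hc hbc (det3_self2 _ _ _) hdet
    have k3 := key a ha c hc hac (det3_self1 _ _ _) hdet
    tauto

theorem card_gls (n M : ℕ) (V : Finset ℕ) (hV : V ⊆ range (n ^ 2)) :
    (gls n V M).card ≤ 2 * n ^ 4 := by
  have hVc : V.card ≤ n ^ 2 := by
    have := card_le_card hV
    rwa [card_range] at this
  have hVV : (V ×ˢ V).card ≤ n ^ 4 := by
    rw [card_product]
    calc V.card * V.card ≤ n ^ 2 * n ^ 2 := Nat.mul_le_mul hVc hVc
      _ = n ^ 4 := by ring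
  unfold gls
  refine (card_union_le _ _).trans ?_
  have h1 := (card_image_le (s := (V ×ˢ V).filter (fun q => q.1 ≠ q.2 ∧ M < pd n q.1 q.2))
    (f := fun q => V ∩ gline n q.1 q.2)).trans (card_filter_le _ _)
  have h2 := (card_image_le (s := (V ×ˢ V).filter (fun q => q.1 ≠ q.2 ∧ pd n q.1 q.2 ≤ M ∧
    (hf n q.1 q.2 q.2 ↔ hf n q.1 q.2 q.1))) (f := fun q => V ∩ ghalf n q.1 q.2)).trans
    (card_filter_le _ _)
  omega

/-- primitive direction from `v` to `w` -/
noncomputable def g1dir (n v w : ℕ) : ℤ × ℤ :=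
  ((px n w - px n v) / (gg n v w : ℤ), (py n w - py n v) / (gg n v w : ℤ))

theorem g1dir_mul (n v w : ℕ) :
    px n w - px n v = (g1dir n v w).1 * gg n v w ∧ py n w - py n v = (g1dir n v w).2 * gg n v w := by
  unfold g1dir gg
  exact ⟨(Int.ediv_mul_cancel (Int.gcd_dvd_left _ _)).symm,
    (Int.ediv_mul_cancel (Int.gcd_dvd_right _ _)).symm⟩

theorem g1dir_le {n v w : ℕ} (h : v ≠ w) :
    (g1dir n v w).1.natAbs ≤ pd n v w ∧ (g1dir n v w).2.natAbs ≤ pd n v w := by
  have hg : 0 < gg n v w := gg_pos h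
  obtain ⟨h1, h2⟩ := g1dir_mul n v w
  have e1 : (px n w - px n v).natAbs = (g1dir n v w).1.natAbs * gg n v w := by
    rw [h1, Int.natAbs_mul, Int.natAbs_natCast]
  have e2 : (py n w - py n v).natAbs = (g1dir n v w).2.natAbs * gg n v w := by
    rw [h2, Int.natAbs_mul, Int.natAbs_natCast]
  unfold pd DD
  constructor
  · rw [Nat.le_div_iff_mul_le hg, ← e1]
    exact le_max_left _ _
  · rw [Nat.le_div_iff_mul_le hg, ← e2]
    exact le_max_right _ _

theorem g1_half_eq {n v w w' : ℕ} (h : v ≠ w) (h' : v ≠ w') (hd : g1dir n v w = g1dir n v w') :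
    ghalf n v w = ghalf n v w' := by
  obtain ⟨h1, h2⟩ := g1dir_mul n v w
  obtain ⟨h1', h2'⟩ := g1dir_mul n v w'
  rw [← hd] at h1' h2'
  have hdet : det3 n v w w' = 0 := by
    unfold det3
    rw [h1, h2, h1', h2']
    ring
  have hl := line_eq h h' (det3_self1 n v w) hdet
  ext e
  unfold ghalf
  rw [mem_filter, mem_filter, mem_gline, mem_gline, hl.1 e, hl.2.2 e, hl.2.2 v]

/-- number of lines of `pre` through a point -/
theorem card_pre (n M : ℕ) (V : Finset ℕ) (hV : V ⊆ range (n ^ 2)) (v : ℕ) :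
    ((gls n V M).filter (fun i => gpre n M i ∧ v ∈ i)).card ≤ (2 * M + 1) ^ 2 := by
  have key : ∀ i ∈ (gls n V M).filter (fun i => gpre n M i ∧ v ∈ i),
      ∃ w, v ≠ w ∧ pd n v w ≤ M ∧ i = V ∩ ghalf n v w := by
    intro i hi
    rw [mem_filter] at hi
    obtain ⟨hi, ⟨a, ha, b, hb, hab, hpd⟩, hv⟩ := hi
    obtain ⟨haV, hbV, h1⟩ := gls_spec hi hab ha hb
    have h1' : i = V ∩ ghalf n a b := by
      rcases h1 with h1 | h1
      · omega
      · exact h1.2.2
    have hmem : ∀ z ∈ i, det3 n a b z = 0 := by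
      intro z hz
      rw [h1', mem_inter] at hz
      have h2 := hz.2
      unfold ghalf at h2
      rw [mem_filter, mem_gline] at h2
      exact h2.1.2
    obtain ⟨w, hw, hvw⟩ : ∃ w ∈ i, v ≠ w := by
      by_cases hva : v = a
      · exact ⟨b, hb, by rw [hva]; exact hab⟩
      · exact ⟨a, ha, hva⟩
    have hpdw : pd n v w ≤ M := by
      rw [(line_eq hab hvw (hmem v hv) (hmem w hw)).2.1]
      exact hpd
    obtain ⟨_, _, h3⟩ := gls_spec hi hvw hv hw
    rcases h3 with h3 | h3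
    · omega
    · exact ⟨w, hvw, hpdw, h3.2.2⟩
  let f : Finset ℕ → ℤ × ℤ := fun i =>
    if h : ∃ w, v ≠ w ∧ pd n v w ≤ M ∧ i = V ∩ ghalf n v w then g1dir n v h.choose else 0
  have hcard : ((Finset.Icc (-(M : ℤ)) M) ×ˢ (Finset.Icc (-(M : ℤ)) M)).card = (2 * M + 1) ^ 2 := by
    rw [card_product, Int.card_Icc, pow_two]
    have : ((M : ℤ) + 1 - -(M : ℤ)).toNat = 2 * M + 1 := by omega
    rw [this]
  rw [← hcard]
  apply Finset.card_le_card_of_injOn f
  · intro i hi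
    have hex := key i hi
    have hf : f i = g1dir n v hex.choose := dif_pos hex
    obtain ⟨h1, h2, -⟩ := hex.choose_spec
    obtain ⟨h3, h4⟩ := g1dir_le (n := n) h1
    rw [hf]
    rw [Finset.coe_product, Set.mem_prod, Finset.mem_coe, Finset.mem_coe, Finset.mem_Icc,
      Finset.mem_Icc]
    omega
  · intro i hi j hj hij
    have hex := key i hi
    have hex' := key j hj
    have hf : f i = g1dir n v hex.choose := dif_pos hex
    have hf' : f j = g1dir n v hex'.choose := dif_pos hex'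
    obtain ⟨h1, -, h2⟩ := hex.choose_spec
    obtain ⟨h1', -, h2'⟩ := hex'.choose_spec
    rw [hf, hf'] at hij
    rw [h2, h2', g1_half_eq h1 h1' hij]

end GPG
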